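import Pool.Agent.Lib.MP_17d4d1_pr.C.Iface
import Pool.Agent.Lib.MP_17d4d1_pr.S.H73.Cls

set_option autoImplicit false

/-!
# Module CLS3: the class of third functions, with functions of three chains
-/

namespace Pool.Agent.Lib.MP_17d4d1_pr.C.H9

open Finset Pool.Agent.Lib.MP_17d4d1_pr Pool.Agent.Lib.MP_17d4d1_pr.S
  Pool.Agent.Lib.MP_17d4d1_pr.S.H73

variable {X : Type} [Fintype X] [DecidableEq X]

omit [Fintype X] in
theorem cls3_inc {L : Set (Finset X)} {h : Finset X → ℝ} (hh : Cls3 L h) : Inc h := by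
  induction hh with
  | chains Y₁ Y₂ Y₃ u _ _ _ hu _ => exact hu
  | two Y => exact ind_inc (thr_ind Y)
  | add u v _ _ hu hv =>
    exact ⟨fun A => add_nonneg (hu.nn A) (hv.nn A), fun A B hAB => add_le_add (hu.mono hAB) (hv.mono hAB)⟩
  | mul k u hk hkm _ _ hu =>
    exact ⟨fun A => mul_nonneg (hk A) (hu.nn A), mono_mul hk hkm hu.nn hu.mono⟩
  | or v c u _ hc hu =>
    have hc0 : 0 ≤ c := (hu.nn ∅).trans (hc ∅)
    refine ⟨fun A => ?_, fun A B hAB => ?_⟩
    · split_ifs
      · exact hc0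
      · exact hu.nn A
    · by_cases hA : v ∈ A
      · rw [if_pos hA, if_pos (hAB hA)]
      · rw [if_neg hA]
        split_ifs
        · exact hc A
        · exact hu.mono hAB

omit [Fintype X] in
theorem chainOn_mono {L : Set (Finset X)} {w : Finset X → ℝ} (hL : ∀ A, w A ≠ 0 → A ∈ L)
    {Y : Finset X} (h : ChainOn L Y) : ChainOn {A | w A ≠ 0} Y :=
  fun A hA B hB => h A (hL A hA) B (hL B hB)

omit [DecidableEq X] in
theorem tilt_live {L : Set (Finset X)} {w k : Finset X → ℝ} (hL : ∀ A, w A ≠ 0 → A ∈ L) :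
    ∀ A, tilt w k A ≠ 0 → A ∈ L := by
  intro A hA
  refine hL A fun h0 => hA ?_
  simp [tilt, h0]

theorem cls3 (h1 : USTAR_S) (h2 : STAR_S) (h3 : BASE_S) : CLS3_S := by
  intro X _ _ L w f g h hw hL hf hg hh
  induction hh generalizing w with
  | chains Y₁ Y₂ Y₃ u c1 c2 c3 hu hdep =>
    exact h3 X w f g u Y₁ Y₂ Y₃ hw hf hg hu (chainOn_mono hL c1) (chainOn_mono hL c2)
      (chainOn_mono hL c3) hdep
  | two Y =>
    rw [E3_eq]
    exact add_nonneg (h1 X w f g (thr Y) hw hf hg (thr_ind Y)) (h2 X Y w f g hw hf hg)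
  | add u v _ _ hu hv =>
    rw [E3_add]
    exact add_nonneg (hu w hw hL) (hv w hw hL)
  | mul k u hk hkm hkl hu ih =>
    have hui := cls3_inc hu
    have e : ∀ v : Finset X → ℝ, Ex w k * Ex (tilt w k) v = Ex w (k * v) :=
      fun v => mul_Ex_tilt hw.nn hk v
    have r1 : f * g * (k * u) = k * (f * g * u) := by ring
    have r2 : f * (k * u) = k * (f * u) := by ring
    have r3 : g * (k * u) = k * (g * u) := by ring
    by_cases hz : Ex w k = 0
    · have h3 : E3 w f g (k * u) = 0 := by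
        unfold E3
        rw [r1, r2, r3, ← e, ← e, ← e, ← e, hz]
        ring
      rw [h3]
    · have hZ : 0 < Ex w k := lt_of_le_of_ne (Ex_nonneg hw.nn hk) (Ne.symm hz)
      have hν := tilt_fkg hw hk hkl hz
      set ν := tilt w k with hνdef
      have hle : ∀ v : Finset X → ℝ, Inc v → Ex w v ≤ Ex ν v := by
        intro v hv
        have h3 := Ex_fkg hw.nn hw.sum hw.lsm hk hkm hv.nn hv.mono
        rw [← e] at h3
        exact le_of_mul_le_mul_left h3 hZ
      have h3 : E3 w f g (k * u) = Ex w k * (E3 ν f g u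
          + (Ex ν (f * g) - Ex w (f * g)) * Ex ν u
          + (Ex ν f - Ex w f) * (Ex ν (g * u) - Ex ν g * Ex ν u)
          + (Ex ν g - Ex w g) * (Ex ν (f * u) - Ex ν f * Ex ν u)
          + (Ex ν f - Ex w f) * (Ex ν g - Ex w g) * Ex ν u) := by
        unfold E3
        rw [r1, r2, r3, ← e, ← e, ← e, ← e]
        ring
      rw [h3]
      have p1 := ih ν hν (tilt_live hL)
      have p2 : 0 ≤ Ex ν u := Ex_nonneg hν.nn hui.nn
      have p3 := hle _ (inc_mul hf hg)
      have p4 := hle _ hf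
      have p5 := hle _ hg
      have p6 := cov_nonneg hν hg hui
      have p7 := cov_nonneg hν hf hui
      have q1 : 0 ≤ (Ex ν (f * g) - Ex w (f * g)) * Ex ν u := mul_nonneg (by linarith) p2
      have q2 : 0 ≤ (Ex ν f - Ex w f) * (Ex ν (g * u) - Ex ν g * Ex ν u) :=
        mul_nonneg (by linarith) p6
      have q3 : 0 ≤ (Ex ν g - Ex w g) * (Ex ν (f * u) - Ex ν f * Ex ν u) :=
        mul_nonneg (by linarith) p7
      have q4 : 0 ≤ (Ex ν f - Ex w f) * (Ex ν g - Ex w g) * Ex ν u :=
        mul_nonneg (mul_nonneg (by linarith) (by linarith)) p2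
      exact mul_nonneg hZ.le (by linarith)
  | or v c u hu hc ih =>
    have hui := cls3_inc hu
    have hc0 : 0 ≤ c := (hui.nn ∅).trans (hc ∅)
    set h : Finset X → ℝ := fun A => if v ∈ A then c else u A with hh
    set p := Ex w (inn v) with hp
    have hpn : 0 ≤ p := Ex_nonneg hw.nn (inn_nonneg v)
    have hq : 1 - p = Ex w (out v) := (Ex_out hw.sum v).symm
    have hqn : 0 ≤ 1 - p := by rw [hq]; exact Ex_nonneg hw.nn (out_nonneg v)
    set μ := tilt w (out v) with hμdef
    set ν := tilt w (inn v) with hνdef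
    have sμ : ∀ A, μ A ≠ 0 → v ∉ A := by
      intro A hA hv
      exact hA (by simp [hμdef, tilt, out, hv])
    have sν : ∀ A, ν A ≠ 0 → v ∈ A := by
      intro A hA
      by_contra hv
      exact hA (by simp [hνdef, tilt, inn, hv])
    have hμ : 1 - p ≠ 0 → FKGW μ := fun hz =>
      tilt_fkg hw (out_nonneg v) (hol_out_out v) (by rw [hq] at hz; exact hz)
    have hν : p ≠ 0 → FKGW ν := fun hz => tilt_fkg hw (inn_nonneg v) (hol_inn_inn v) hz
    have hHol : Hol μ ν :=
      Hol.tilt hw.nn hw.nn (out_nonneg v) (inn_nonneg v) hw.lsm (hol_out_inn v)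
    have sp : ∀ F : Finset X → ℝ, Ex w (F * h) = (1 - p) * Ex μ (F * u) + p * (c * Ex ν F) := by
      intro F
      rw [Ex_split hw.nn hw.sum v (F * h)]
      congr 1
      · congr 1
        refine Ex_congr fun A hA => ?_
        simp only [Pi.mul_apply, hh, if_neg (sμ A hA)]
      · congr 1
        rw [← Ex_smul]
        refine Ex_congr fun A hA => ?_
        simp only [Pi.mul_apply, hh, if_pos (sν A hA)]
        ring
    have sp1 : Ex w h = (1 - p) * Ex μ u + p * (c * (if p = 0 then 1 else 1)) := by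
      have := sp 1
      rw [one_mul, one_mul] at this
      rw [this]
      by_cases hz : p = 0
      · rw [hz]; ring
      · have h3 : Ex ν (1 : Finset X → ℝ) = 1 := by
          have := Ex_const (hν hz).sum 1
          exact this
        rw [h3, if_neg hz]
    rw [ite_self, mul_one] at sp1
    have key : E3 w f g h = (1 - p) * ((1 - p) * E3 μ f g u)
        + p * ((1 - p) * BB μ ν f g u c)
        + p * ((p * c + (1 - p) * (c - Ex μ u)) * (Ex ν (f * g) - Ex ν f * Ex ν g))
        + p * ((1 - p) * ((1 - p) * ((c - Ex μ u) * ((Ex ν f - Ex μ f) * (Ex ν g - Ex μ g))))) := by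
      unfold E3 BB
      rw [sp, sp, sp, sp1, Ex_split hw.nn hw.sum v (f * g), Ex_split hw.nn hw.sum v f,
        Ex_split hw.nn hw.sum v g]
      ring
    rw [key]
    have hcu : 1 - p ≠ 0 → 0 ≤ c - Ex μ u := by
      intro hz
      have h3 : Ex μ u ≤ Ex μ (fun _ => c) :=
        sum_le_sum fun A _ => mul_le_mul_of_nonneg_left (hc A) ((hμ hz).nn A)
      rw [Ex_const (hμ hz).sum] at h3
      linarith
    have t1 : 0 ≤ (1 - p) * ((1 - p) * E3 μ f g u) := by
      by_cases hz : 1 - p = 0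
      · rw [hz]; simp
      · exact mul_nonneg hqn (mul_nonneg hqn (ih μ (hμ hz) (tilt_live hL)))
    have t2 : 0 ≤ p * ((1 - p) * BB μ ν f g u c) := by
      by_cases hz : 1 - p = 0
      · rw [hz]; simp
      by_cases hz' : p = 0
      · rw [hz']; simp
      refine mul_nonneg hpn (mul_nonneg hqn ?_)
      exact BB_nonneg hf.nn hf.mono hg.nn hg.mono hui.nn hui.mono hc univ μ ν (hμ hz).nn (hν hz').nn
        (hμ hz).sum (hν hz').sum (hμ hz).lsm (hν hz').lsm hHol ∅ ∅
        (fun A _ => by simp) (fun A _ => by simp)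
    have t3 : 0 ≤ p * ((p * c + (1 - p) * (c - Ex μ u)) * (Ex ν (f * g) - Ex ν f * Ex ν g)) := by
      by_cases hz' : p = 0
      · rw [hz']; simp
      refine mul_nonneg hpn (mul_nonneg (add_nonneg (mul_nonneg hpn hc0) ?_)
        (cov_nonneg (hν hz') hf hg))
      by_cases hz : 1 - p = 0
      · rw [hz]; simp
      · exact mul_nonneg hqn (hcu hz)
    have t4 : 0 ≤ p * ((1 - p) * ((1 - p) * ((c - Ex μ u)
        * ((Ex ν f - Ex μ f) * (Ex ν g - Ex μ g))))) := by
      by_cases hz : 1 - p = 0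
      · rw [hz]; simp
      by_cases hz' : p = 0
      · rw [hz']; simp
      have h3 := Ex_le (hμ hz).nn (hν hz').nn (hμ hz).sum (hν hz').sum hHol hf.nn hf.mono
      have h4 := Ex_le (hμ hz).nn (hν hz').nn (hμ hz).sum (hν hz').sum hHol hg.nn hg.mono
      exact mul_nonneg hpn (mul_nonneg hqn (mul_nonneg hqn (mul_nonneg (hcu hz)
        (mul_nonneg (by linarith) (by linarith)))))
    linarith

end Pool.Agent.Lib.MP_17d4d1_pr.C.H9
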