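import Pool.Agent.Lib.MP_17d4d1_pr.C.Iface

set_option autoImplicit false

/-!
# Module POL: polarisation
-/

namespace Pool.Agent.Lib.MP_17d4d1_pr.C.H9

open Finset Pool.Agent.Lib.MP_17d4d1_pr Pool.Agent.Lib.MP_17d4d1_pr.S

/-- The permutations of three letters. -/
abbrev S3 : Type := Equiv.Perm (Fin 3)

/-- The sum over the permutations of three letters as a sum over a point and a shift. -/
theorem perm_sum (G : Fin 3 → Fin 3 → Fin 3 → ℝ) :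
    ∑ σ : S3, G (σ 0) (σ 1) (σ 2) =
      ∑ x, ∑ d ∈ ({1, 2} : Finset (Fin 3)), G x (x + d) (x + d + d) := by
  rw [← Finset.sum_product']
  refine Finset.sum_bij (fun σ _ => ((σ 0 : Fin 3), (σ 1 - σ 0 : Fin 3))) ?_ ?_ ?_ ?_
  · intro σ _
    revert σ
    decide
  · intro σ _ τ _
    revert σ τ
    decide
  · intro y hy
    revert y
    decide
  · intro σ _
    have h1 : ∀ σ : S3, σ 1 = σ 0 + (σ 1 - σ 0) := by decide
    have h2 : ∀ σ : S3, σ 2 = σ 0 + (σ 1 - σ 0) + (σ 1 - σ 0) := by decide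
    rw [← h2 σ, ← h1 σ]

/-- The same for three permutations. -/
theorem perm_sum3 (K : P → P → P → ℝ) :
    ∑ g : S3 × S3 × S3, K (g.1 0, g.2.1 0, g.2.2 0) (g.1 1, g.2.1 1, g.2.2 1)
      (g.1 2, g.2.1 2, g.2.2 2) = ∑ x : P, ∑ d ∈ D, K x (x + d) (x + d + d) := by
  have h1 : ∑ g : S3 × S3 × S3, K (g.1 0, g.2.1 0, g.2.2 0) (g.1 1, g.2.1 1, g.2.2 1)
      (g.1 2, g.2.1 2, g.2.2 2) =
      ∑ x₁ : Fin 3, ∑ d₁ ∈ ({1, 2} : Finset (Fin 3)), ∑ x₂ : Fin 3,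
        ∑ d₂ ∈ ({1, 2} : Finset (Fin 3)), ∑ x₃ : Fin 3, ∑ d₃ ∈ ({1, 2} : Finset (Fin 3)),
        K (x₁, x₂, x₃) (x₁ + d₁, x₂ + d₂, x₃ + d₃)
          (x₁ + d₁ + d₁, x₂ + d₂ + d₂, x₃ + d₃ + d₃) := by
    rw [Fintype.sum_prod_type]
    rw [← perm_sum (fun y₀ y₁ y₂ => ∑ x₂ : Fin 3,
        ∑ d₂ ∈ ({1, 2} : Finset (Fin 3)), ∑ x₃ : Fin 3, ∑ d₃ ∈ ({1, 2} : Finset (Fin 3)),
        K (y₀, x₂, x₃) (y₁, x₂ + d₂, x₃ + d₃) (y₂, x₂ + d₂ + d₂, x₃ + d₃ + d₃))]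
    refine Finset.sum_congr rfl fun σ _ => ?_
    rw [Fintype.sum_prod_type]
    rw [← perm_sum (fun y₀ y₁ y₂ => ∑ x₃ : Fin 3, ∑ d₃ ∈ ({1, 2} : Finset (Fin 3)),
        K (σ 0, y₀, x₃) (σ 1, y₁, x₃ + d₃) (σ 2, y₂, x₃ + d₃ + d₃))]
    refine Finset.sum_congr rfl fun τ _ => ?_
    exact perm_sum (fun y₀ y₁ y₂ => K (σ 0, τ 0, y₀) (σ 1, τ 1, y₁) (σ 2, τ 2, y₂))
  rw [h1, Fintype.sum_prod_type]
  refine Finset.sum_congr rfl fun x₁ _ => ?_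
  rw [Finset.sum_comm, Fintype.sum_prod_type]
  refine Finset.sum_congr rfl fun x₂ _ => ?_
  have h2 : ∀ d₁ ∈ ({1, 2} : Finset (Fin 3)), ∑ d₂ ∈ ({1, 2} : Finset (Fin 3)), ∑ x₃ : Fin 3,
      ∑ d₃ ∈ ({1, 2} : Finset (Fin 3)), K (x₁, x₂, x₃) (x₁ + d₁, x₂ + d₂, x₃ + d₃)
          (x₁ + d₁ + d₁, x₂ + d₂ + d₂, x₃ + d₃ + d₃) =
      ∑ x₃ : Fin 3, ∑ d₂ ∈ ({1, 2} : Finset (Fin 3)),
      ∑ d₃ ∈ ({1, 2} : Finset (Fin 3)), K (x₁, x₂, x₃) (x₁ + d₁, x₂ + d₂, x₃ + d₃)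
          (x₁ + d₁ + d₁, x₂ + d₂ + d₂, x₃ + d₃ + d₃) := fun d₁ _ => Finset.sum_comm
  rw [Finset.sum_congr rfl h2, Finset.sum_comm]
  refine Finset.sum_congr rfl fun x₃ _ => ?_
  rw [D, Finset.sum_product]
  refine Finset.sum_congr rfl fun d₁ _ => ?_
  rw [Finset.sum_product]
  rfl

/-- The functional of three points. -/
def Phi {α : Type} (h k a b : α → ℝ) (x y z : α) : ℝ :=
  2 * (h x * k x) - h x * k y - h x * a x * b y - h x * b x * a y + h x * (a y * b z)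

theorem pure_eq (h k a b : P → ℝ) :
    Pure h k a b = ∑ x : P, ∑ d ∈ D, Phi h k a b x (x + d) (x + d + d) := rfl

section

variable {A B C : Type}

/-- The three points. -/
def pt (ω : (Fin 3 → A) × (Fin 3 → B) × (Fin 3 → C)) (i : Fin 3) : A × B × C :=
  (ω.1 i, ω.2.1 i, ω.2.2 i)

/-- The action of the permutations. -/
def act (ω : (Fin 3 → A) × (Fin 3 → B) × (Fin 3 → C)) (g : S3 × S3 × S3) :
    (Fin 3 → A) × (Fin 3 → B) × (Fin 3 → C) :=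
  (ω.1 ∘ g.1, ω.2.1 ∘ g.2.1, ω.2.2 ∘ g.2.2)

/-- The weight. -/
def wt (p : A → ℝ) (q : B → ℝ) (r : C → ℝ) (ω : (Fin 3 → A) × (Fin 3 → B) × (Fin 3 → C)) : ℝ :=
  (∏ i, p (ω.1 i)) * (∏ i, q (ω.2.1 i)) * (∏ i, r (ω.2.2 i))

theorem wt_act (p : A → ℝ) (q : B → ℝ) (r : C → ℝ)
    (ω : (Fin 3 → A) × (Fin 3 → B) × (Fin 3 → C)) (g : S3 × S3 × S3) :
    wt p q r (act ω g) = wt p q r ω := by
  unfold wt act
  simp only [Function.comp_apply]
  rw [Equiv.prod_comp g.1 (fun i => p (ω.1 i)), Equiv.prod_comp g.2.1 (fun i => q (ω.2.1 i)),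
    Equiv.prod_comp g.2.2 (fun i => r (ω.2.2 i))]

/-- The action is a bijection. -/
def actE (g : S3 × S3 × S3) : (Fin 3 → A) × (Fin 3 → B) × (Fin 3 → C) ≃
    (Fin 3 → A) × (Fin 3 → B) × (Fin 3 → C) where
  toFun ω := act ω g
  invFun ω := act ω g⁻¹
  left_inv ω := by
    refine Prod.ext ?_ (Prod.ext ?_ ?_) <;> funext i <;> simp [act]
  right_inv ω := by
    refine Prod.ext ?_ (Prod.ext ?_ ?_) <;> funext i <;> simp [act]

theorem act_mul (ω : (Fin 3 → A) × (Fin 3 → B) × (Fin 3 → C)) (g g' : S3 × S3 × S3) :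
    act ω (g * g') = act (act ω g) g' := rfl

/-- Three points from three functions. -/
def ptE : (Fin 3 → A) × (Fin 3 → B) × (Fin 3 → C) ≃
    (A × B × C) × (A × B × C) × (A × B × C) where
  toFun ω := (pt ω 0, pt ω 1, pt ω 2)
  invFun m := (![m.1.1, m.2.1.1, m.2.2.1], ![m.1.2.1, m.2.1.2.1, m.2.2.2.1],
    ![m.1.2.2, m.2.1.2.2, m.2.2.2.2])
  left_inv ω := by
    refine Prod.ext ?_ (Prod.ext ?_ ?_) <;> funext i <;> fin_cases i <;> rfl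
  right_inv m := by rfl

variable [Fintype A] [Fintype B] [Fintype C]

theorem E3p_eq (p : A → ℝ) (q : B → ℝ) (r : C → ℝ) (u : A × B × C → ℝ) :
    E3p p q r u = ∑ m : A × B × C, p m.1 * q m.2.1 * r m.2.2 * u m := by
  unfold E3p
  rw [Fintype.sum_prod_type]
  refine Finset.sum_congr rfl fun x _ => ?_
  rw [Fintype.sum_prod_type]

/-- The expectation of a product. -/
theorem sum_prod3 (p : A → ℝ) (q : B → ℝ) (r : C → ℝ) (F₀ F₁ F₂ : A × B × C → ℝ) :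
    ∑ ω : (Fin 3 → A) × (Fin 3 → B) × (Fin 3 → C),
      wt p q r ω * (F₀ (pt ω 0) * F₁ (pt ω 1) * F₂ (pt ω 2)) =
      E3p p q r F₀ * E3p p q r F₁ * E3p p q r F₂ := by
  have h1 : ∑ ω : (Fin 3 → A) × (Fin 3 → B) × (Fin 3 → C),
      wt p q r ω * (F₀ (pt ω 0) * F₁ (pt ω 1) * F₂ (pt ω 2)) =
      ∑ m : (A × B × C) × (A × B × C) × (A × B × C),
        (p m.1.1 * q m.1.2.1 * r m.1.2.2 * F₀ m.1) *
          ((p m.2.1.1 * q m.2.1.2.1 * r m.2.1.2.2 * F₁ m.2.1) *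
          (p m.2.2.1 * q m.2.2.2.1 * r m.2.2.2.2 * F₂ m.2.2)) := by
    refine Fintype.sum_equiv ptE _ _ fun ω => ?_
    simp only [wt, ptE, pt, Equiv.coe_fn_mk, Fin.prod_univ_three]
    ring
  rw [h1, Fintype.sum_prod_type, E3p_eq, E3p_eq, E3p_eq, mul_assoc, Finset.sum_mul]
  refine Finset.sum_congr rfl fun m _ => ?_
  dsimp only
  rw [← Finset.mul_sum, Fintype.sum_prod_type]
  congr 1
  rw [Finset.sum_mul]
  refine Finset.sum_congr rfl fun m' _ => ?_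
  dsimp only
  rw [← Finset.mul_sum]

/-- The left hand side as one sum. -/
theorem lhs_eq (p : A → ℝ) (q : B → ℝ) (r : C → ℝ) (h1 : ∑ x, p x = 1) (h2 : ∑ x, q x = 1)
    (h3 : ∑ x, r x = 1) (h k a b : A × B × C → ℝ) :
    2 * E3p p q r (h * k) - E3p p q r h * E3p p q r k - E3p p q r (h * a) * E3p p q r b
      - E3p p q r (h * b) * E3p p q r a + E3p p q r h * E3p p q r a * E3p p q r b =
    ∑ ω : (Fin 3 → A) × (Fin 3 → B) × (Fin 3 → C),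
      wt p q r ω * Phi h k a b (pt ω 0) (pt ω 1) (pt ω 2) := by
  have hone : E3p p q r (fun _ => 1) = 1 := by
    unfold E3p
    simp only [mul_one, ← Finset.mul_sum, h3, h2, h1]
  have e1 := sum_prod3 p q r (h * k) (fun _ => 1) (fun _ => 1)
  have e2 := sum_prod3 p q r h k (fun _ => 1)
  have e3 := sum_prod3 p q r (h * a) b (fun _ => 1)
  have e4 := sum_prod3 p q r (h * b) a (fun _ => 1)
  have e5 := sum_prod3 p q r h a b
  rw [hone] at e1 e2 e3 e4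
  have e6 : ∑ ω : (Fin 3 → A) × (Fin 3 → B) × (Fin 3 → C),
      wt p q r ω * Phi h k a b (pt ω 0) (pt ω 1) (pt ω 2) =
      2 * (∑ ω : (Fin 3 → A) × (Fin 3 → B) × (Fin 3 → C),
        wt p q r ω * ((h * k) (pt ω 0) * 1 * 1)) -
      (∑ ω : (Fin 3 → A) × (Fin 3 → B) × (Fin 3 → C),
        wt p q r ω * (h (pt ω 0) * k (pt ω 1) * 1)) -
      (∑ ω : (Fin 3 → A) × (Fin 3 → B) × (Fin 3 → C),
        wt p q r ω * ((h * a) (pt ω 0) * b (pt ω 1) * 1)) -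
      (∑ ω : (Fin 3 → A) × (Fin 3 → B) × (Fin 3 → C),
        wt p q r ω * ((h * b) (pt ω 0) * a (pt ω 1) * 1)) +
      (∑ ω : (Fin 3 → A) × (Fin 3 → B) × (Fin 3 → C),
        wt p q r ω * (h (pt ω 0) * a (pt ω 1) * b (pt ω 2))) := by
    rw [Finset.mul_sum, ← Finset.sum_sub_distrib, ← Finset.sum_sub_distrib,
      ← Finset.sum_sub_distrib, ← Finset.sum_add_distrib]
    refine Finset.sum_congr rfl fun ω _ => ?_
    simp only [Phi, Pi.mul_apply]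
    ring
  rw [e6, e1, e2, e3, e4, e5]
  ring

variable [LinearOrder A] [LinearOrder B] [LinearOrder C]

omit [Fintype A] [Fintype B] [Fintype C] in
/-- The sum over the permutations is nonnegative. -/
theorem perm_nonneg (hpure : PURE_S) (h k a b : A × B × C → ℝ) (hh : Mo h) (hk : Mo k)
    (ha : Mo a) (hb : Mo b) (hab : ∀ x, a x * b x ≤ k x)
    (ω : (Fin 3 → A) × (Fin 3 → B) × (Fin 3 → C)) :
    0 ≤ ∑ g : S3 × S3 × S3, Phi h k a b (pt (act ω g) 0) (pt (act ω g) 1) (pt (act ω g) 2) := by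
  have hsort : ∃ ρ : S3 × S3 × S3, Monotone (act ω ρ).1 ∧ Monotone (act ω ρ).2.1 ∧
      Monotone (act ω ρ).2.2 :=
    ⟨(Tuple.sort ω.1, Tuple.sort ω.2.1, Tuple.sort ω.2.2), Tuple.monotone_sort _,
      Tuple.monotone_sort _, Tuple.monotone_sort _⟩
  obtain ⟨ρ, m1, m2, m3⟩ := hsort
  have h1 : ∑ g : S3 × S3 × S3, Phi h k a b (pt (act ω g) 0) (pt (act ω g) 1) (pt (act ω g) 2) =
      ∑ g : S3 × S3 × S3, Phi h k a b (pt (act (act ω ρ) g) 0) (pt (act (act ω ρ) g) 1)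
        (pt (act (act ω ρ) g) 2) :=
    (Fintype.sum_equiv (Equiv.mulLeft ρ) _ _ fun g => by
      rw [Equiv.coe_mulLeft, act_mul]).symm
  rw [h1]
  set ω' := act ω ρ
  set θ : P → A × B × C := fun x => (ω'.1 x.1, ω'.2.1 x.2.1, ω'.2.2 x.2.2) with hθ
  have hθm : Monotone θ := fun x y hxy => ⟨m1 hxy.1, m2 hxy.2.1, m3 hxy.2.2⟩
  have hMo : ∀ f : A × B × C → ℝ, Mo f → Mo (f ∘ θ) := fun f hf =>
    ⟨fun x => hf.nn _, hf.mono.comp hθm⟩
  have h2 := hpure (h ∘ θ) (k ∘ θ) (a ∘ θ) (b ∘ θ) (hMo h hh) (hMo k hk) (hMo a ha) (hMo b hb)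
    (fun x => hab _)
  rw [pure_eq, ← perm_sum3 (fun x y z => Phi (h ∘ θ) (k ∘ θ) (a ∘ θ) (b ∘ θ) x y z)] at h2
  exact h2

end

theorem pol : POL_S := by
  intro hpure A B C _ _ _ _ _ _ p q r hp hq hr h1 h2 h3 h k a b hh hk ha hb hab
  rw [lhs_eq p q r h1 h2 h3 h k a b]
  set Ψ : (Fin 3 → A) × (Fin 3 → B) × (Fin 3 → C) → ℝ :=
    fun ω => Phi h k a b (pt ω 0) (pt ω 1) (pt ω 2) with hΨ
  have hg : ∀ g : S3 × S3 × S3, ∑ ω, wt p q r ω * Ψ (act ω g) = ∑ ω, wt p q r ω * Ψ ω := by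
    intro g
    refine Fintype.sum_equiv (actE g) _ _ fun ω => ?_
    show wt p q r ω * Ψ (act ω g) = wt p q r (act ω g) * Ψ (act ω g)
    rw [wt_act]
  have hsum : ((Finset.univ : Finset (S3 × S3 × S3)).card : ℝ) * ∑ ω, wt p q r ω * Ψ ω =
      ∑ ω, wt p q r ω * ∑ g : S3 × S3 × S3, Ψ (act ω g) := by
    simp only [Finset.mul_sum (Finset.univ : Finset (S3 × S3 × S3))]
    rw [Finset.sum_comm, Finset.sum_congr rfl fun g _ => hg g, Finset.sum_const, nsmul_eq_mul]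
  have hwt : ∀ ω : (Fin 3 → A) × (Fin 3 → B) × (Fin 3 → C), 0 ≤ wt p q r ω := fun ω =>
    mul_nonneg (mul_nonneg (Finset.prod_nonneg fun i _ => hp _)
      (Finset.prod_nonneg fun i _ => hq _)) (Finset.prod_nonneg fun i _ => hr _)
  have hpos : 0 ≤ ((Finset.univ : Finset (S3 × S3 × S3)).card : ℝ) * ∑ ω, wt p q r ω * Ψ ω := by
    rw [hsum]
    exact Finset.sum_nonneg fun ω _ => mul_nonneg (hwt ω)
      (perm_nonneg hpure h k a b hh hk ha hb hab ω)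
  have hcard : (0 : ℝ) < ((Finset.univ : Finset (S3 × S3 × S3)).card : ℝ) := by
    rw [Nat.cast_pos]
    exact Finset.card_pos.mpr Finset.univ_nonempty
  exact nonneg_of_mul_nonneg_right hpos hcard

end Pool.Agent.Lib.MP_17d4d1_pr.C.H9
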